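import Mathlib

set_option autoImplicit false
open Finset

namespace Pool.Agent.H.MP_a2c283_pr

variable {V : Type} [Fintype V] [DecidableEq V]

def wt (P : V → V → ℝ) {t : ℕ} (p : Fin (t + 1) → V) : ℝ := ∏ s : Fin t, P (p s.castSucc) (p s.succ)

def miss (P : V → V → ℝ) (u : V) (S : Finset V) (t : ℕ) : ℝ :=
  ∑ p : Fin (t + 1) → V, if p 0 = u ∧ ∃ v ∈ S, ∀ s, p s ≠ v then wt P p else 0

def missK (P : V → V → ℝ) {k : ℕ} (u : Fin k → V) (t : ℕ) : ℝ :=
  ∑ p : Fin k → Fin (t + 1) → V,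
    if (∀ i, p i 0 = u i) ∧ ∃ v, ∀ i s, p i s ≠ v then ∏ i, wt P (p i) else 0

variable {P : V → V → ℝ}

theorem miss_empty (u : V) (t : ℕ) : miss P u ∅ t = 0 := by simp [miss]

theorem miss_zero (u : V) (S : Finset V) :
    miss P u S 0 = if (S.erase u).Nonempty then 1 else 0 := by
  rw [miss, sum_eq_single (fun _ => u)]
  · simp only [wt, univ_eq_empty, prod_empty, true_and, forall_const, Finset.Nonempty, mem_erase]
    exact if_congr (exists_congr fun v => by rw [and_comm, ne_comm]) rfl rfl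
  · intro p _ hp
    exact if_neg fun h => hp (funext fun s => by rw [Subsingleton.elim (α := Fin 1) s 0]; exact h.1)
  · simp

theorem miss_succ (u : V) (S : Finset V) (t : ℕ) :
    miss P u S (t + 1) = ∑ y, P u y * miss P y (S.erase u) t := by
  rw [miss, ← (Fin.consEquiv fun _ => V).sum_comp, Fintype.sum_prod_type, sum_eq_single u]
  · simp only [miss, mul_sum]
    rw [sum_comm]
    refine sum_congr rfl fun p _ => ?_
    rw [sum_eq_single (p 0)]
    · simp only [wt, Fin.consEquiv_apply, Fin.cons_zero, true_and, Fin.prod_univ_succ,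
        Fin.castSucc_zero, Fin.castSucc_succ, Fin.cons_succ, mul_ite, mul_zero]
      refine if_congr (exists_congr fun v => ?_) rfl rfl
      rw [Fin.forall_fin_succ, mem_erase]
      simp only [Fin.cons_zero, Fin.cons_succ]
      tauto
    · intro y _ hy
      simp [Ne.symm hy]
    · simp
  · intro x _ hx
    simp [hx]
  · simp

omit [Fintype V] [DecidableEq V] in
theorem wt_nonneg (h0 : ∀ u y, 0 ≤ P u y) {t : ℕ} (p : Fin (t + 1) → V) : 0 ≤ wt P p :=
  prod_nonneg fun _ _ => h0 _ _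

theorem miss_nonneg (h0 : ∀ u y, 0 ≤ P u y) (u : V) (S : Finset V) (t : ℕ) : 0 ≤ miss P u S t :=
  sum_nonneg fun p _ => by split_ifs; exacts [wt_nonneg h0 p, le_rfl]

theorem missK_nonneg (h0 : ∀ u y, 0 ≤ P u y) {k : ℕ} (u : Fin k → V) (t : ℕ) : 0 ≤ missK P u t :=
  sum_nonneg fun p _ => by split_ifs; exacts [prod_nonneg fun i _ => wt_nonneg h0 _, le_rfl]

theorem miss_le_one (h0 : ∀ u y, 0 ≤ P u y) (h1 : ∀ u, ∑ y, P u y = 1) (t : ℕ) :
    ∀ u S, miss P u S t ≤ 1 := by
  induction t with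
  | zero => intro u S; rw [miss_zero]; split_ifs; exacts [le_rfl, zero_le_one]
  | succ t ih =>
    intro u S
    rw [miss_succ, ← h1 u]
    exact sum_le_sum fun y _ => mul_le_of_le_one_right (h0 _ _) (ih _ _)

theorem miss_anti (h0 : ∀ u y, 0 ≤ P u y) (h1 : ∀ u, ∑ y, P u y = 1) (t : ℕ) :
    ∀ u S, miss P u S (t + 1) ≤ miss P u S t := by
  induction t with
  | zero =>
    intro u S
    rw [miss_zero]
    split_ifs with h
    · exact miss_le_one h0 h1 _ _ _
    · rw [miss_succ, not_nonempty_iff_eq_empty.mp h]; simp [miss_empty]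
  | succ t ih =>
    intro u S
    rw [miss_succ, miss_succ]
    exact sum_le_sum fun y _ => mul_le_mul_of_nonneg_left (ih _ _) (h0 _ _)

theorem miss_antitone (h0 : ∀ u y, 0 ≤ P u y) (h1 : ∀ u, ∑ y, P u y = 1) (u : V) (S : Finset V) :
    Antitone (miss P u S) := antitone_nat_of_succ_le fun t => miss_anti h0 h1 t u S

theorem miss_self (v : V) (t : ℕ) : miss P v {v} t = 0 := by
  cases t with
  | zero => simp [miss_zero]
  | succ t => simp [miss_succ, miss_empty]

theorem miss_ne {u v : V} (h : u ≠ v) (t : ℕ) :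
    miss P u {v} (t + 1) = ∑ y, P u y * miss P y {v} t := by
  rw [miss_succ, erase_eq_of_notMem (by simpa using h)]

theorem super (h0 : ∀ u y, 0 ≤ P u y) (v : V) (φ : V → ℝ) (hφ : ∀ u, 0 ≤ φ u)
    (h : ∀ u, u ≠ v → 1 + ∑ y, P u y * φ y ≤ φ u) (M : ℕ) :
    ∀ u, ∑ t ∈ range M, miss P u {v} t ≤ φ u := by
  induction M with
  | zero => simpa using hφ
  | succ M ih =>
    intro u
    by_cases hu : u = v
    · simpa [hu, miss_self] using hφ v
    rw [sum_range_succ', miss_zero, add_comm]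
    refine le_trans (add_le_add (by split_ifs; exacts [le_rfl, zero_le_one]) ?_) (h u hu)
    simp only [miss_ne hu]
    rw [sum_comm]
    refine sum_le_sum fun y _ => ?_
    rw [← mul_sum]
    exact mul_le_mul_of_nonneg_left (ih y) (h0 _ _)

theorem sub (h0 : ∀ u y, 0 ≤ P u y) (ψ : V → Finset V → ℝ) (B : ℝ)
    (hB : ∀ u S, ψ u S ≤ B * if (S.erase u).Nonempty then 1 else 0)
    (h : ∀ u S, ψ u S ≤ (if (S.erase u).Nonempty then 1 else 0) + ∑ y, P u y * ψ y (S.erase u))
    (M : ℕ) : ∀ u S, ψ u S ≤ ∑ t ∈ range M, miss P u S t + B * miss P u S M := by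
  induction M with
  | zero => simpa [miss_zero] using hB
  | succ M ih =>
    intro u S
    rw [sum_range_succ', miss_zero, add_comm (∑ _ ∈ _, _), add_assoc]
    refine (h u S).trans (add_le_add le_rfl ?_)
    simp only [miss_succ]
    rw [sum_comm, mul_sum, ← sum_add_distrib]
    refine sum_le_sum fun y _ => ?_
    rw [← mul_sum, mul_left_comm, ← mul_add]
    exact mul_le_mul_of_nonneg_left (ih y _) (h0 _ _)

theorem sub_le (h0 : ∀ u y, 0 ≤ P u y) (ψ : V → Finset V → ℝ) (B : ℝ)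
    (hB : ∀ u S, ψ u S ≤ B * if (S.erase u).Nonempty then 1 else 0)
    (h : ∀ u S, ψ u S ≤ (if (S.erase u).Nonempty then 1 else 0) + ∑ y, P u y * ψ y (S.erase u))
    (u : V) (S : Finset V) (hs : Summable (miss P u S)) : ψ u S ≤ ∑' t, miss P u S t := by
  have := hs.hasSum.tendsto_sum_nat.add (hs.tendsto_atTop_zero.const_mul B)
  rw [mul_zero, add_zero] at this
  exact ge_of_tendsto' this fun M => sub h0 ψ B hB h M u S

theorem miss_union (h0 : ∀ u y, 0 ≤ P u y) (u : V) (S : Finset V) (t : ℕ) :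
    miss P u S t ≤ ∑ v, miss P u {v} t := by
  simp only [miss]
  rw [sum_comm]
  refine sum_le_sum fun p _ => ?_
  have hn : ∀ v ∈ univ, 0 ≤ if p 0 = u ∧ ∃ w ∈ ({v} : Finset V), ∀ s, p s ≠ w then wt P p else 0 :=
    fun v _ => by split_ifs; exacts [wt_nonneg h0 p, le_rfl]
  split_ifs with h
  · obtain ⟨h1, v, -, h2⟩ := h
    exact le_trans (by rw [if_pos ⟨h1, v, mem_singleton_self v, h2⟩]) (single_le_sum hn (mem_univ v))
  · exact sum_nonneg hn

theorem missK_aux (h0 : ∀ u y, 0 ≤ P u y) {k : ℕ} (u : Fin k → V) (t : ℕ) :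
    missK P u t ≤ ∑ v, ∏ i, miss P (u i) {v} t := by
  simp only [missK, miss, prod_univ_sum, Fintype.piFinset_univ]
  rw [sum_comm]
  refine sum_le_sum fun p _ => ?_
  have hn : ∀ v ∈ univ, 0 ≤ ∏ i, if p i 0 = u i ∧ ∃ w ∈ ({v} : Finset V), ∀ s, p i s ≠ w
      then wt P (p i) else 0 :=
    fun v _ => prod_nonneg fun i _ => by split_ifs; exacts [wt_nonneg h0 _, le_rfl]
  split_ifs with h
  · obtain ⟨h1, v, h2⟩ := h
    refine le_trans (le_of_eq (prod_congr rfl fun i _ => ?_)) (single_le_sum hn (mem_univ v))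
    rw [if_pos ⟨h1 i, v, mem_singleton_self v, h2 i⟩]
  · exact sum_nonneg hn

theorem tot (h1 : ∀ u, ∑ y, P u y = 1) (t : ℕ) :
    ∀ u, ∑ p : Fin (t + 1) → V, (if p 0 = u then wt P p else 0) = 1 := by
  induction t with
  | zero =>
    intro u
    rw [sum_eq_single (fun _ => u)]
    · simp [wt]
    · intro p _ hp
      exact if_neg fun h => hp (funext fun s => by rw [Subsingleton.elim (α := Fin 1) s 0]; exact h)
    · simp
  | succ t ih =>
    intro u
    rw [← (Fin.consEquiv fun _ => V).sum_comp, Fintype.sum_prod_type, sum_eq_single u]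
    · rw [← h1 u, sum_congr rfl (g := fun y => P u y * ∑ p : Fin (t + 1) → V,
        (if p 0 = y then wt P p else 0)) fun y _ => by rw [ih, mul_one]]
      simp only [mul_sum]
      rw [sum_comm]
      refine sum_congr rfl fun p _ => ?_
      rw [sum_eq_single (p 0)]
      · simp [wt, Fin.prod_univ_succ]
      · intro y _ hy
        simp [Ne.symm hy]
      · simp
    · intro x _ hx
      simp [hx]
    · simp

theorem missK_le_one (h0 : ∀ u y, 0 ≤ P u y) (h1 : ∀ u, ∑ y, P u y = 1) {k : ℕ} (u : Fin k → V)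
    (t : ℕ) : missK P u t ≤ 1 := by
  have : ∏ i : Fin k, ∑ p : Fin (t + 1) → V, (if p 0 = u i then wt P p else 0) = 1 := by
    simp [tot h1]
  rw [← this, prod_univ_sum, Fintype.piFinset_univ]
  refine sum_le_sum fun p _ => ?_
  split_ifs with h
  · exact le_of_eq (prod_congr rfl fun i _ => by rw [if_pos (h.1 i)])
  · exact prod_nonneg fun i _ => by split_ifs; exacts [wt_nonneg h0 _, le_rfl]

theorem missK_sum (h0 : ∀ u y, 0 ≤ P u y) (h1 : ∀ u, ∑ y, P u y = 1) (k : ℕ) (u : V) (A : ℝ)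
    (hA : ∀ v M, ∑ t ∈ range M, miss P u {v} t ≤ A) (T M : ℕ) :
    ∑ t ∈ range M, missK P (fun _ : Fin (k + 1) => u) t ≤ T + A * ∑ v, miss P u {v} T ^ k := by
  have hn := missK_nonneg h0 (fun _ : Fin (k + 1) => u)
  refine (sum_le_sum_of_subset_of_nonneg (range_mono (Nat.le_add_left M T)) fun t _ _ => hn t).trans ?_
  rw [sum_range_add]
  refine add_le_add ((sum_le_card_nsmul _ _ 1 fun t _ => missK_le_one h0 h1 _ t).trans (by simp)) ?_
  refine (sum_le_sum fun t _ => missK_aux h0 _ _).trans ?_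
  rw [sum_comm, mul_sum]
  refine sum_le_sum fun v _ => ?_
  refine le_trans ?_ (mul_le_mul_of_nonneg_right (hA v M) (pow_nonneg (miss_nonneg h0 _ _ _) _))
  rw [sum_mul]
  refine sum_le_sum fun t _ => ?_
  rw [Fin.prod_const, pow_succ']
  exact mul_le_mul (miss_antitone h0 h1 _ _ (by omega)) (pow_le_pow_left₀ (miss_nonneg h0 _ _ _)
    (miss_antitone h0 h1 _ _ (by omega)) _) (pow_nonneg (miss_nonneg h0 _ _ _) _)
    (miss_nonneg h0 _ _ _)

theorem markov (h0 : ∀ u y, 0 ≤ P u y) (h1 : ∀ u, ∑ y, P u y = 1) (u : V) (S : Finset V) (T : ℕ) :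
    T * miss P u S T ≤ ∑ t ∈ range T, miss P u S t := by
  simpa using card_nsmul_le_sum (range T) (miss P u S) (miss P u S T) fun t ht =>
    miss_antitone h0 h1 _ _ (mem_range.mp ht).le

end Pool.Agent.H.MP_a2c283_pr
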