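import Mathlib
import Pool.Agent.H.MP_a2c283_pr.Gen

set_option autoImplicit false
open Finset

namespace Pool.Agent.H.MP_a2c283_pr

noncomputable def tp {V : Type} [Fintype V] (G : SimpleGraph V) [DecidableRel G.Adj] (u y : V) : ℝ :=
  if G.Adj u y then 1 / G.degree u else 0

abbrev VV (m n : ℕ) := Option (Fin m) ⊕ Option (Fin n)

def adj {m n : ℕ} : VV m n → VV m n → Bool
  | .inl none, .inl (some _) => true
  | .inl (some _), .inl none => true
  | .inl none, .inr none => true
  | .inr none, .inl none => true
  | .inr a, .inr b => decide (a ≠ b)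
  | _, _ => false

def GG (m n : ℕ) : SimpleGraph (VV m n) where
  Adj a b := adj a b = true
  symm := ⟨by
    rintro ((_ | a) | (_ | a)) ((_ | b) | (_ | b)) <;> simp [adj]
    exact fun h e => h e.symm⟩
  loopless := ⟨by rintro ((_ | a) | (_ | a)) <;> simp [adj]⟩

instance (m n : ℕ) : DecidableRel (GG m n).Adj := fun a b => inferInstanceAs (Decidable (adj a b = true))

variable {m n : ℕ}

def AA (u : VV m n) (g : VV m n → ℝ) : ℝ := ∑ y, if adj u y = true then g y else 0

theorem av (u : VV m n) (g : VV m n → ℝ) :
    ∑ y, tp (GG m n) u y * g y = AA u g / AA u fun _ => 1 := by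
  have : (AA u fun _ => 1) = (GG m n).degree u := by
    rw [AA, ← SimpleGraph.card_neighborFinset_eq_degree, SimpleGraph.neighborFinset_eq_filter,
      card_filter]
    push_cast
    rfl
  rw [this, AA, sum_div]
  refine sum_congr rfl fun y _ => ?_
  simp only [tp, GG]
  split_ifs <;> ring

theorem av_c (g : VV m n → ℝ) : ∑ y, tp (GG m n) (.inl none) y * g y
    = (∑ i, g (.inl (some i)) + g (.inr none)) / (m + 1) := by
  rw [av]; simp only [AA, Fintype.sum_sum_type, Fintype.sum_option]; simp [adj]

theorem av_l (i : Fin m) (g : VV m n → ℝ) :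
    ∑ y, tp (GG m n) (.inl (some i)) y * g y = g (.inl none) := by
  rw [av]; simp only [AA, Fintype.sum_sum_type, Fintype.sum_option]; simp [adj]

theorem av_w (g : VV m n → ℝ) : ∑ y, tp (GG m n) (.inr none) y * g y
    = (g (.inl none) + ∑ j, g (.inr (some j))) / (n + 1) := by
  rw [av]; simp only [AA, Fintype.sum_sum_type, Fintype.sum_option]; simp [adj, add_comm]

theorem av_y (j : Fin n) (g : VV m n → ℝ) : ∑ y, tp (GG m n) (.inr (some j)) y * g y
    = (g (.inr none) + ∑ i, g (.inr (some i)) - g (.inr (some j))) / n := by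
  have e : ∀ f : Fin n → ℝ, ∑ i, (if j = i then 0 else f i) = ∑ i, f i - f j := by
    intro f
    rw [eq_sub_iff_add_eq, ← sum_erase_add _ _ (mem_univ j), ← sum_erase_add _ f (mem_univ j)]
    simp only [if_true, add_zero, add_left_inj]
    exact sum_congr rfl fun i hi => if_neg (ne_of_mem_erase hi).symm
  rw [av]; simp only [AA, Fintype.sum_sum_type, Fintype.sum_option]; simp [adj, e, add_sub_assoc]

theorem tp0 (u y : VV m n) : 0 ≤ tp (GG m n) u y := by unfold tp; split_ifs <;> positivity

theorem tp1 (hn : 0 < n) (u : VV m n) : ∑ y, tp (GG m n) u y = 1 := by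
  have hn' : (0 : ℝ) < n := by exact_mod_cast hn
  rw [sum_congr rfl (g := fun y => tp (GG m n) u y * (fun _ => (1 : ℝ)) y) fun _ _ => by simp]
  rcases u with (_ | a) | (_ | a)
  · rw [av_c]; simp; positivity
  · rw [av_l]
  · rw [av_w]; simp; field_simp; ring
  · rw [av_y]; simp [hn.ne']

theorem conn : (GG m n).Connected := by
  have h : ∀ u, (GG m n).Reachable (.inl none) u := by
    have hw : (GG m n).Adj (.inl none) (.inr none) := rfl
    rintro ((_ | a) | (_ | a))
    · rfl
    · exact SimpleGraph.Adj.reachable (show (GG m n).Adj (.inl none) (.inl (some a)) from rfl)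
    · exact hw.reachable
    · exact hw.reachable.trans (SimpleGraph.Adj.reachable
        (show (GG m n).Adj (.inr none) (.inr (some a)) by simp [GG, adj]))
  exact ⟨fun u v => (h u).symm.trans (h v)⟩

/-- supersolution for a clique target -/
theorem hitR (hn : 0 < n) (x : Option (Fin n)) (M : ℕ) (u : VV m n) :
    ∑ t ∈ range M, miss (tp (GG m n)) u {.inr x} t ≤ n + 4 * m + 4 := by
  have hn' : (0 : ℝ) < n := by exact_mod_cast hn
  let D : ℝ := n + 2 * m + 2
  let φ : VV m n → ℝ := fun u => match u with
    | .inl none => D + 2 * m + 1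
    | .inl (some _) => D + 2 * m + 2
    | .inr a => if a = x then 0 else D
  have hD : 0 ≤ D := by positivity
  refine (super tp0 (.inr x) φ ?_ ?_ M u).trans ?_
  · rintro ((_ | a) | a) <;> simp only [φ]
    · positivity
    · positivity
    · split_ifs; exacts [le_rfl, hD]
  · have hs : ∑ j, φ (.inr (some j)) = n * D - if x = none then 0 else D := by
      rcases x with _ | x
      · simp [φ]
      · simp only [φ, Option.some.injEq, reduceCtorEq, if_false]
        rw [eq_sub_iff_add_eq, ← sum_erase_add _ _ (mem_univ x),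
          sum_congr rfl (g := fun _ => D) fun i hi => if_neg (ne_of_mem_erase hi)]
        simp [card_erase_of_mem, Nat.cast_sub hn]; ring
    rintro ((_ | a) | (_ | a)) hu
    · rw [av_c, ← le_sub_iff_add_le', div_le_iff₀ (by positivity)]
      simp only [φ, sum_const, card_univ, Fintype.card_fin, nsmul_eq_mul]
      split_ifs <;> nlinarith
    · rw [av_l]; simp only [φ]; linarith
    · have hx : x ≠ none := fun h => hu (by rw [h])
      rw [av_w, ← le_sub_iff_add_le', div_le_iff₀ (by positivity), hs]
      simp only [φ, if_neg hx, if_neg hx.symm, D]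
      nlinarith
    · have hx : some a ≠ x := fun h => hu (by rw [h])
      rw [av_y, ← le_sub_iff_add_le', div_le_iff₀ (by positivity), hs]
      simp only [φ, if_neg hx]
      by_cases h : x = none
      · rw [if_pos h, if_pos h.symm]; simp only [D]; nlinarith
      · rw [if_neg h, if_neg (Ne.symm h)]; simp only [D]; nlinarith
  · rcases u with ((_ | a) | a) <;> simp only [φ, D]
    · linarith
    · linarith
    · split_ifs <;> linarith [(Nat.cast_nonneg m : (0 : ℝ) ≤ m)]

/-- supersolution for a star target -/
theorem hitL (hn : 0 < n) (x : Option (Fin m)) (M : ℕ) (u : VV m n) :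
    ∑ t ∈ range M, miss (tp (GG m n)) u {.inl x} t ≤ 2 * n ^ 2 + 3 * n + 2 * m + 2 := by
  have hn' : (0 : ℝ) < n := by exact_mod_cast hn
  have hm : (0 : ℝ) ≤ m := Nat.cast_nonneg m
  let b : ℝ := n ^ 2 + n + 1
  let e : ℝ := 2 * m + b
  let φ : VV m n → ℝ := fun u => match u with
    | .inl none => e
    | .inl (some a) => if some a = x then 0 else e + 1
    | .inr none => e + b
    | .inr (some _) => e + b + n
  have hb : 0 ≤ b := by positivity
  have he : 0 ≤ e := by positivity
  refine (super tp0 (.inl x) φ ?_ ?_ M u).trans ?_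
  · rintro ((_ | a) | (_ | a)) <;> simp only [φ]
    · positivity
    · split_ifs <;> positivity
    · positivity
    · positivity
  · rintro ((_ | a) | (_ | a)) hu
    · obtain ⟨x, rfl⟩ : ∃ y, x = some y := by
        rcases x with _ | x
        exacts [absurd rfl hu, ⟨x, rfl⟩]
      have hm1 : 0 < m := x.pos
      rw [av_c, ← le_sub_iff_add_le', div_le_iff₀ (by positivity)]
      simp only [φ, Option.some.injEq]
      rw [← sum_erase_add _ _ (mem_univ x),
        sum_congr rfl (g := fun _ => e + 1) fun i hi => if_neg (ne_of_mem_erase hi)]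
      simp only [sum_const, card_erase_of_mem (mem_univ x), card_univ, Fintype.card_fin,
        nsmul_eq_mul, Nat.cast_sub hm1, if_true, e]
      push_cast
      nlinarith
    · have hx : some a ≠ x := fun h => hu (by rw [h])
      rw [av_l]; simp only [φ, if_neg hx]; linarith
    · rw [av_w, ← le_sub_iff_add_le', div_le_iff₀ (by positivity)]
      simp only [φ, sum_const, card_univ, Fintype.card_fin, nsmul_eq_mul, b]
      nlinarith
    · rw [av_y, ← le_sub_iff_add_le', div_le_iff₀ (by positivity)]
      simp only [φ, sum_const, card_univ, Fintype.card_fin, nsmul_eq_mul]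
      nlinarith
  · rcases u with ((_ | a) | (_ | a)) <;> simp only [φ, e, b]
    · nlinarith
    · split_ifs <;> nlinarith
    · nlinarith
    · nlinarith

theorem leaf (hn : 0 < n) (x : Fin m) (j : ℕ) :
    (miss (tp (GG m n)) (.inl none) {.inl (some x)} (2 * j) - 1 / 2) * (m + 1 + 2 * j)
      ≤ (m + 1) / 2 := by
  have hm : (1 : ℝ) ≤ m := by exact_mod_cast x.pos
  induction j with
  | zero => simp [miss_zero]; linarith
  | succ j ih =>
    have h1 := miss_le_one tp0 (tp1 (m := m) hn) (2 * j + 1) (.inr none) {.inl (some x)}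
    set a := miss (tp (GG m n)) (.inl none) {.inl (some x)} (2 * j)
    have h2 : miss (tp (GG m n)) (.inl none) {.inl (some x)} (2 * (j + 1))
        ≤ ((m - 1) * a + 1) / (m + 1) := by
      rw [show 2 * (j + 1) = 2 * j + 1 + 1 by ring, miss_ne (by simp), av_c,
        ← sum_erase_add _ _ (mem_univ x), miss_self, sum_congr rfl (g := fun _ => a) fun i hi => by
          rw [miss_ne (by simpa using ne_of_mem_erase hi), av_l]]
      simp only [sum_const, card_erase_of_mem (mem_univ x), card_univ, Fintype.card_fin,
        nsmul_eq_mul, Nat.cast_sub x.pos]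
      gcongr
      push_cast
      linarith
    rw [le_div_iff₀ (by positivity)] at h2
    set a' := miss (tp (GG m n)) (.inl none) {.inl (some x)} (2 * (j + 1))
    have hj : (0 : ℝ) ≤ j := Nat.cast_nonneg j
    push_cast
    by_contra hc
    push Not at hc
    have h3 : (a' - 1 / 2) * (m + 1) ≤ (m - 1) * (a - 1 / 2) := by linarith
    have h4 := mul_le_mul_of_nonneg_left ih (sub_nonneg.mpr hm)
    have h5 := mul_le_mul_of_nonneg_right h3 (show (0 : ℝ) ≤ m + 1 + 2 * j by positivity)
    have h6 := mul_lt_mul_of_pos_right hc (show (0 : ℝ) < (m + 1) * (m + 1 + 2 * j) by positivity)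
    have h7 : (a' - 1 / 2) * (m + 1) * (m + 1 + 2 * j) ≤ (m - 1) * ((m + 1) / 2) := by linarith
    have h8 := mul_le_mul_of_nonneg_right h7 (show (0 : ℝ) ≤ m + 1 + 2 * (j + 1) by positivity)
    nlinarith [mul_nonneg hj (show (0 : ℝ) ≤ m + 1 by positivity)]

end Pool.Agent.H.MP_a2c283_pr
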