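import Mathlib
import Pool.Agent.H.MP_a2c283_pr.Graph

set_option autoImplicit false
open Finset

namespace Pool.Agent.H.MP_a2c283_pr

variable {m n : ℕ}

def LL (S : Finset (VV m n)) : Finset (Fin m) := univ.filter fun i => .inl (some i) ∈ S

noncomputable def ff (n s : ℕ) : ℝ := n ^ 2 * Real.log (s + 1)

def ex : VV m n → ℝ
  | .inl _ => 0
  | .inr none => n ^ 2
  | .inr (some _) => n ^ 2 + n

noncomputable def psi (u : VV m n) (S : Finset (VV m n)) : ℝ :=
  ff n (LL (S.erase u)).card + if (LL (S.erase u)).card = 0 then 0 else ex u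

theorem LL_c (S : Finset (VV m n)) : LL (S.erase (.inl none)) = LL S := by ext; simp [LL]
theorem LL_r (S : Finset (VV m n)) (a : Option (Fin n)) : LL (S.erase (.inr a)) = LL S := by
  ext; simp [LL]
theorem LL_l (S : Finset (VV m n)) (a : Fin m) : LL (S.erase (.inl (some a))) = (LL S).erase a := by
  ext; simp [LL]

theorem ff0 (s : ℕ) : 0 ≤ ff n s :=
  mul_nonneg (by positivity) (Real.log_nonneg (by linarith [(Nat.cast_nonneg s : (0 : ℝ) ≤ s)]))

theorem ex0 (u : VV m n) : 0 ≤ ex u ∧ ex u ≤ n ^ 2 + n := by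
  rcases u with a | (_ | a) <;> simp only [ex] <;> constructor <;>
    nlinarith [(Nat.cast_nonneg n : (0 : ℝ) ≤ n)]

theorem psi0 (u : VV m n) (S : Finset (VV m n)) : 0 ≤ psi u S :=
  add_nonneg (ff0 _) (by split_ifs; exacts [le_rfl, (ex0 u).1])

theorem ne_of (S : Finset (VV m n)) (h : (LL S).card ≠ 0) : S.Nonempty := by
  obtain ⟨i, hi⟩ := card_pos.mp (Nat.pos_of_ne_zero h)
  exact ⟨_, (mem_filter.mp hi).2⟩

theorem low (hn : 0 < n) (hs : Summable (miss (tp (GG m n)) (.inl none) univ)) :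
    n ^ 2 * Real.log (m + 1) ≤ ∑' t, miss (tp (GG m n)) (.inl none) univ t := by
  have hn' : (0 : ℝ) < n := by exact_mod_cast hn
  refine le_of_eq_of_le ?_ (sub_le tp0 psi (ff n m + (n ^ 2 + n)) (fun u S => ?_) (fun u S => ?_)
    _ _ hs)
  · simp [psi, ex, LL, ff]
  · by_cases h : (LL (S.erase u)).card = 0
    · have : psi u S = 0 := by simp [psi, h, ff]
      rw [this]
      exact mul_nonneg (add_nonneg (ff0 _) (by positivity)) (by split_ifs <;> norm_num)
    · rw [if_pos (ne_of _ h), mul_one, psi, if_neg h]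
      refine add_le_add ?_ (ex0 u).2
      have : (LL (S.erase u)).card ≤ m := (card_le_univ _).trans (by simp)
      unfold ff
      gcongr
  · by_cases h : (LL (S.erase u)).card = 0
    · have : psi u S = 0 := by simp [psi, h, ff]
      rw [this]
      exact add_nonneg (by split_ifs <;> norm_num)
        (sum_nonneg fun y _ => mul_nonneg (tp0 _ _) (psi0 _ _))
    rw [if_pos (ne_of _ h), psi, if_neg h]
    generalize S.erase u = S at h ⊢
    rcases u with (_ | a) | (_ | a)
    · rw [av_c, ← sub_le_iff_le_add', le_div_iff₀ (by positivity)]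
      simp only [psi, LL_r, LL_l, ex, if_neg h, ite_self, add_zero]
      obtain ⟨s, hs⟩ : ∃ s, (LL S).card = s + 1 := ⟨(LL S).card - 1, by omega⟩
      rw [← sum_add_sum_compl (LL S), sum_congr rfl (g := fun _ => ff n s) fun i hi => by
        rw [card_erase_of_mem hi, hs]; rfl, sum_congr (s₁ := (LL S)ᶜ) rfl (g := fun _ => ff n (s + 1)) fun i hi => by
        rw [erase_eq_of_notMem (mem_compl.mp hi), hs]]
      have h1 : s + 1 ≤ m := hs ▸ (card_le_univ _).trans (by simp)
      simp only [sum_const, card_compl, Fintype.card_fin, hs, nsmul_eq_mul, Nat.cast_sub h1, ff]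
      push_cast
      have h2 : (0 : ℝ) < s + 1 := by positivity
      have h3 := Real.log_le_sub_one_of_pos (x := (s + 1 + 1) / (s + 1)) (by positivity)
      rw [Real.log_div (by positivity) h2.ne', le_sub_iff_add_le, le_div_iff₀ h2] at h3
      have h4 := mul_le_mul_of_nonneg_left h3 (sq_nonneg (n : ℝ))
      nlinarith [(Nat.cast_nonneg m : (0 : ℝ) ≤ m)]
    · rw [av_l]; simp only [psi, LL_c, ex, ite_self]; linarith
    · rw [av_w, ← sub_le_iff_le_add', le_div_iff₀ (by positivity)]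
      simp only [psi, LL_r, LL_c, ex, if_neg h, sum_const, card_univ, Fintype.card_fin,
        nsmul_eq_mul]
      nlinarith
    · rw [av_y, ← sub_le_iff_le_add', le_div_iff₀ (by positivity)]
      simp only [psi, LL_r, ex, if_neg h, sum_const, card_univ, Fintype.card_fin, nsmul_eq_mul]
      nlinarith

theorem hit3 (hn : 2 * m + 5 ≤ n) (u v : VV m n) (M : ℕ) :
    ∑ t ∈ range M, miss (tp (GG m n)) u {v} t ≤ 3 * n ^ 2 := by
  have h1 : (2 * m + 5 : ℝ) ≤ n := by exact_mod_cast hn
  have h2 : (0 : ℝ) ≤ m := Nat.cast_nonneg m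
  rcases v with x | x
  · exact (hitL (by omega) x M u).trans (by nlinarith)
  · exact (hitR (by omega) x M u).trans (by nlinarith)

theorem up (q k : ℕ) (hn : 4 * m + 5 ≤ n) (hq : 1 ≤ q) (M : ℕ) :
    ∑ t ∈ range M, missK (tp (GG m n)) (fun _ : Fin (k + 2 + 1) => .inl none) t
      ≤ (n * q : ℕ) + 3 * n ^ 2 * (m * (2 / 3) ^ (k + 2) + (n + 1) * (2 / q) ^ 2) := by
  have hn0 : 0 < n := by omega
  have h1 : (4 * m + 5 : ℝ) ≤ n := by exact_mod_cast hn
  have h2 : (0 : ℝ) ≤ m := Nat.cast_nonneg m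
  have hq' : (0 : ℝ) < q := by exact_mod_cast hq
  refine (missK_sum tp0 (tp1 hn0) (k + 2) _ _ (fun v M => hit3 (by omega) _ v M) (n * q) M).trans ?_
  gcongr
  rw [Fintype.sum_sum_type, Fintype.sum_option, miss_self, zero_pow (by omega), zero_add]
  refine add_le_add ((sum_le_card_nsmul _ _ ((2 / 3) ^ (k + 2)) fun x _ => ?_).trans (by simp))
    ((sum_le_card_nsmul _ _ ((2 / (q : ℝ)) ^ 2) fun x _ => ?_).trans (by simp))
  · refine pow_le_pow_left₀ (miss_nonneg tp0 _ _ _) ((miss_antitone tp0 (tp1 hn0) _ _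
      (show 2 * (m + 1) ≤ n * q by nlinarith)).trans ?_) _
    have := leaf hn0 x (m + 1)
    push_cast at this
    nlinarith
  · refine (pow_le_pow_of_le_one (miss_nonneg tp0 _ _ _) (miss_le_one tp0 (tp1 hn0) _ _ _)
      (show 2 ≤ k + 2 by omega)).trans (pow_le_pow_left₀ (miss_nonneg tp0 _ _ _) ?_ _)
    have := (markov tp0 (tp1 hn0) _ _ (n * q)).trans (hitR (m := m) hn0 x _ (.inl none))
    push_cast at this
    rw [le_div_iff₀ hq']
    refine le_of_mul_le_mul_left ?_ (show (0 : ℝ) < n by linarith)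
    nlinarith

end Pool.Agent.H.MP_a2c283_pr
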